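import Pool.Agent.N940.OT.Main

/-!
# Fluctuations of the empirical quadratic transport cost on the unit square

Ledoux's question: let `T n` be the quadratic optimal transport cost between the empirical measure
of `n` independent uniform points of the unit square and the uniform law. The fluctuations
`n * (T n - E (T n))` converge in distribution to a centred random variable, which is the sum over
the nonzero Neumann frequencies `k` of the square of the random variables
`(g k ^ 2 - 1) / lam k` with `g k` independent standard normal and
`lam k = π ^ 2 * (k.1 ^ 2 + k.2 ^ 2)` (sum in the sense of `L ^ 2`).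

Method (`Pool/Agent/N940/OT`): by the inequality of Efron and Stein and the one-sided bound for the
change of the cost by the Kantorovich potential (the other side follows from the symmetry between a
point and its new value), the variance of the difference between `n * T n` and the quadratic form of
the first Fourier coefficients of the empirical measure is bounded by the squared `L ^ 2` distance
between the potential and the solution of a Poisson equation; for the low modes this distance is
bounded by the cost, for the high modes by the inequality of Bessel for the gradient. A bound for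
the second moment of the cost comes from dyadic refinements.
-/

set_option autoImplicit false

open MeasureTheory Filter Topology ProbabilityTheory
open scoped ENNReal

namespace Pool.Agent.Results.MP_f27aad_pr.TransportFluctuations

/-- The uniform law on the unit square. -/
noncomputable def unif : Measure (ℝ × ℝ) := volume.restrict (Set.Icc 0 1 ×ˢ Set.Icc 0 1)

/-- The empirical measure of `n` points. -/
noncomputable def emp (n : ℕ) (x : Fin n → ℝ × ℝ) : Measure (ℝ × ℝ) :=
  (n : ℝ≥0∞)⁻¹ • ∑ i, Measure.dirac (x i)

/-- The squared Euclidean distance in the plane. -/
def sqDist (z w : ℝ × ℝ) : ℝ := (z.1 - w.1) ^ 2 + (z.2 - w.2) ^ 2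

/-- The quadratic optimal transport cost: the infimum over the couplings of the expected squared
distance (every coupling of two probability measures with finite second moments has a finite one,
so that the integral is the expectation). -/
noncomputable def cost (μ ν : Measure (ℝ × ℝ)) : ℝ :=
  sInf {c | ∃ π : Measure ((ℝ × ℝ) × (ℝ × ℝ)), π.map Prod.fst = μ ∧ π.map Prod.snd = ν ∧
    c = ∫ p, sqDist p.1 p.2 ∂π}

/-- The law of a family of independent standard normal variables indexed by the frequencies. -/
noncomputable def gauss : Measure (ℕ × ℕ → ℝ) := Measure.infinitePi fun _ => gaussianReal 0 1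

instance : IsProbabilityMeasure gauss := by
  unfold gauss
  infer_instance

/-- The Neumann eigenvalue of the frequency `k` of the unit square. -/
noncomputable def eigenvalue (k : ℕ × ℕ) : ℝ := Real.pi ^ 2 * ((k.1 : ℝ) ^ 2 + (k.2 : ℝ) ^ 2)

/-- The sum of `(g k ^ 2 - 1) / eigenvalue k` over the nonzero frequencies in the box of size
`K`. -/
noncomputable def boxSum (K : ℕ) (g : ℕ × ℕ → ℝ) : ℝ :=
  ∑ k ∈ (Finset.range K ×ˢ Finset.range K).erase (0, 0), (g k ^ 2 - 1) / eigenvalue k

/-- **Fluctuations of the empirical quadratic transport cost.** There is a centred random variable
`ξ` (the limit in `L ^ 2` of the sums of `(g k ^ 2 - 1) / eigenvalue k` over boxes of nonzero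
frequencies, the `g k` being independent standard normal) such that for every sequence `X` of
independent uniform points of the unit square the random variables
`n * (cost (emp n X) unif - E cost (emp n X) unif)` converge in distribution to `ξ`. -/
theorem result.{u} :
    ∃ ξ : (ℕ × ℕ → ℝ) → ℝ, Measurable ξ ∧ MemLp ξ 2 gauss ∧ ∫ g, ξ g ∂gauss = 0 ∧
      Tendsto (fun K : ℕ => ∫ g, (boxSum K g - ξ g) ^ 2 ∂gauss) atTop (𝓝 0) ∧
      ∀ (Ω : Type u) [MeasurableSpace Ω] (μ : Measure Ω) [IsProbabilityMeasure μ]
        (X : ℕ → Ω → ℝ × ℝ), (∀ i, Measurable (X i)) → (∀ i, μ.map (X i) = unif) →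
        iIndepFun X μ →
        TendstoInDistribution (fun (n : ℕ) ω => (n : ℝ) *
          (cost (emp n fun i => X i ω) unif - ∫ ω', cost (emp n fun i => X i ω') unif ∂μ))
          atTop ξ (fun _ => μ) gauss :=
  Pool.Agent.N940.OT.Main.final

end Pool.Agent.Results.MP_f27aad_pr.TransportFluctuations
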